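import Mathlib
import Pool.Agent.H50.Tor7
import Pool.Agent.H50.Tor8

namespace Pool.Agent.Results.MP_8a71fe_al.Exact

open Finset MvPolynomial Pool.Agent.H50.Tor Pointwise

lemma dig {M : ℕ} (k : ℕ) : ∀ (u v : Fin k → ℕ) (a b : ℕ), (∀ i, u i < M) → (∀ i, v i < M) →
    ∑ i, u i * M ^ (i : ℕ) + a * M ^ k = ∑ i, v i * M ^ (i : ℕ) + b * M ^ k → u = v := by
  induction k with
  | zero => intro u v _ _ _ _ _; exact Subsingleton.elim _ _
  | succ k ih =>
    intro u v a b hu hv h
    have e : ∀ (u : Fin (k + 1) → ℕ) a, ∑ i, u i * M ^ (i : ℕ) + a * M ^ (k + 1) =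
        u 0 + M * (∑ i : Fin k, u i.succ * M ^ (i : ℕ) + a * M ^ k) := fun u a => by
      simp only [Fin.sum_univ_succ, Fin.val_succ, Fin.val_zero, pow_succ, mul_add, mul_sum]
      rw [add_assoc]
      congr 2
      · simp
      · exact sum_congr rfl fun _ _ => by ring
      · ring
    rw [e, e] at h
    have h0 : u 0 = v 0 := by
      have := congrArg (· % M) h
      simpa [Nat.mod_eq_of_lt (hu 0), Nat.mod_eq_of_lt (hv 0)] using this
    rw [h0, add_right_inj, mul_right_inj' (by have := hu 0; omega)] at h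
    have := ih _ _ a b (fun i => hu _) (fun i => hv _) h
    exact funext fun i => Fin.cases h0 (fun i => congrFun this i) i

variable (h : ℕ)

def MM : ℕ := 3 * h * h + 3 * h + 2
def BB (t : Fin 10) : ℕ := MM h ^ (t.val + 1)
def DD : ℕ := MM h ^ 11
def AA : ℕ := 1 + h * ∑ t, BB h t

def GG : Set (Fin 8 →₀ ℕ) := {gg (DD h) 0 0, gg (DD h) (DD h) 0} ∪
  (Set.range fun t => gg (DD h) (BB h t) 0) ∪
  Set.range fun t => gg (DD h) (AA h - h * BB h t) (jj t)

lemma bA (t : Fin 10) : h * BB h t < AA h :=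
  Nat.lt_one_add_iff.2 (Nat.mul_le_mul_left _
    (single_le_sum (fun _ _ => Nat.zero_le _) (mem_univ t)))

lemma bD (t : Fin 10) : BB h t ≤ DD h :=
  Nat.pow_le_pow_right (by unfold MM; omega) (by omega)

lemma aD : AA h ≤ DD h := by
  have a : ∀ k, 1 + h * ∑ t ∈ range k, MM h ^ (t + 1) ≤ MM h ^ (k + 1) := fun k => by
    induction k with
    | zero => simp [MM]
    | succ k ih =>
      have : h + 1 ≤ MM h := by unfold MM; omega
      rw [sum_range_succ, pow_succ _ (k + 1)]
      nlinarith [Nat.mul_le_mul_left (MM h ^ (k + 1)) this]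
  have := a 10
  rwa [← Fin.sum_univ_eq_sum_range fun t => MM h ^ (t + 1)] at this

lemma g_yd : ∀ g ∈ GG h, yd g = DD h := by
  rintro _ (((rfl | rfl) | ⟨t, rfl⟩) | ⟨t, rfl⟩)
  exacts [gg_yd rfl rfl (Nat.zero_le _), gg_yd rfl rfl le_rfl, gg_yd rfl rfl (bD h t),
    gg_yd (jj6 t) (jj7 t) ((Nat.sub_le _ _).trans (aD h))]

lemma inv (l : ℕ) : ∀ g ∈ l • GG h, ∃ (j : ℕ) (m n : Fin 10 → ℕ), ∑ t, m t + ∑ t, n t ≤ l ∧
    g 6 + h * ∑ t, n t * BB h t = (∑ t, n t) * AA h + ∑ t, m t * BB h t + j * DD h ∧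
    ∀ i ∈ XX, g i = ∑ t, n t * jj t i := by
  induction l with
  | zero => intro g x; rw [zero_nsmul, Set.mem_zero] at x; exact ⟨0, 0, 0, by simp [x]⟩
  | succ l ih =>
    rw [succ_nsmul]
    rintro _ ⟨a, ha, b, hb, rfl⟩
    obtain ⟨j, m, n, h1, h2, h3⟩ := ih a ha
    have gx : ∀ c x, ∀ i ∈ XX, gg (DD h) c x i = x i := fun c x i y => by
      simp [gg, Finsupp.single_apply, (xx_iff.1 y).1.symm, (xx_iff.1 y).2.symm]
    have ps : ∀ (m f : Fin 10 → ℕ) t, ∑ s, (m + Pi.single t 1 : Fin 10 → ℕ) s * f s =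
        ∑ s, m s * f s + f t := fun m f t => by
      simp [add_mul, sum_add_distrib, Pi.single_apply]
    have ps1 : ∀ (m : Fin 10 → ℕ) t, ∑ s, (m + Pi.single t 1 : Fin 10 → ℕ) s = ∑ s, m s + 1 :=
      fun m t => by simp [sum_add_distrib]
    simp only [Finsupp.add_apply]
    rcases hb with ((rfl | rfl) | ⟨t, rfl⟩) | ⟨t, rfl⟩
    · exact ⟨j, m, n, by omega, by rw [gg6 _ _ rfl]; omega, fun i x => by simp [gx _ _ i x, h3 i x]⟩
    · exact ⟨j + 1, m, n, by omega, by rw [gg6 _ _ rfl, add_one_mul]; omega,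
        fun i x => by simp [gx _ _ i x, h3 i x]⟩
    · exact ⟨j, m + Pi.single t 1, n, by rw [ps1]; omega, by rw [gg6 _ _ rfl, ps]; omega,
        fun i x => by simp [gx _ _ i x, h3 i x]⟩
    · refine ⟨j, m, n + Pi.single t 1, by rw [ps1]; omega, ?_,
        fun i x => by rw [gx _ _ i x, h3 i x, ps]⟩
      have := bA h t
      rw [gg6 _ _ (jj6 t), ps, ps1, add_one_mul, mul_add]; omega

lemma uniq {l : ℕ} (hl : l ≤ h) : ∀ g ∈ l • GG h, ∀ g' ∈ l • GG h, g 6 = g' 6 → g = g' := by
  intro g a g' a' e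
  obtain ⟨j, m, n, h1, h2, h3⟩ := inv h l g a
  obtain ⟨j', m', n', h1', h2', h3'⟩ := inv h l g' a'
  have b : ∀ (m : Fin 10 → ℕ) t, m t ≤ ∑ s, m s := fun m t =>
    single_le_sum (fun _ _ => Nat.zero_le _) (mem_univ t)
  have c : ∀ (k : ℕ) (m n : Fin 10 → ℕ), k ≤ h → ∑ s, m s ≤ h → ∑ s, n s ≤ h → ∀ i,
      (Fin.cons k fun t => k * h + m t + h * n t : Fin 11 → ℕ) i < MM h := fun k m n x y z i => by
    refine Fin.cases (by simp [MM]; omega) (fun t => ?_) i
    have := (b m t).trans y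
    have := Nat.mul_le_mul_left h ((b n t).trans z)
    have := Nat.mul_le_mul_right h x
    simp only [Fin.cons_succ, MM, mul_assoc]; omega
  have d : ∀ (k : ℕ) (m n : Fin 10 → ℕ), ∑ i, (Fin.cons k fun t => k * h + m t + h * n t :
      Fin 11 → ℕ) i * MM h ^ (i : ℕ) = k * AA h + ∑ t, m t * BB h t + h * ∑ t, n t * BB h t :=
    fun k m n => by
      rw [Fin.sum_univ_succ]
      simp only [Fin.cons_zero, Fin.cons_succ, Fin.val_succ, Fin.val_zero, AA, BB, mul_add,
        add_mul, sum_add_distrib, mul_sum, mul_assoc, pow_zero, add_assoc]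
  have k := dig 11 _ _ j j' (c (∑ t, n t) m n' (by omega) (by omega) (by omega))
    (c (∑ t, n' t) m' n (by omega) (by omega) (by omega)) (by rw [d, d, ← DD]; omega)
  have k0 : ∑ t, n t = ∑ t, n' t := congrFun k 0
  have kn : n = n' := by
    by_contra x
    obtain ⟨t, -, y⟩ : ∃ t ∈ univ, n' t < n t := by
      by_contra y
      push Not at y
      exact x (funext fun t => (sum_eq_sum_iff_of_le y).1 k0 t (mem_univ t))
    have := congrFun k t.succ
    simp only [Fin.cons_succ, k0] at this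
    have := Nat.mul_le_mul_left h (Nat.succ_le_of_lt y)
    have := b m t
    have := b n t
    rw [Nat.mul_succ] at *; omega
  ext i
  by_cases x : i ∈ XX
  · rw [h3 i x, h3' i x, kn]
  · have y : g 6 + g 7 = g' 6 + g' 7 := (yd_ns (g_yd h) l g a).trans (yd_ns (g_yd h) l g' a').symm
    rw [xx_iff] at x
    rcases (not_and_or.1 x).imp not_not.1 not_not.1 with rfl | rfl
    · exact e
    · rwa [e, add_right_inj] at y

lemma one {N : ℕ} {U : Set (Fin 8 →₀ ℕ)} (h1 : ∀ g ∈ U, yd g = N)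
    (h2 : ∀ g ∈ U, ∀ g' ∈ U, g 6 = g' 6 → g = g') (α : Fin 8 →₀ ℕ) :
    ∃ j0, ∀ (K : Type) [Field K], ∀ j ≠ j0, Van K α.support (LL N U α) j := by
  rcases ((α.support.erase 6).erase 7).eq_empty_or_nonempty with a | ne
  · refine small LL_up ((card_le_card fun i x => ?_).trans (card_le_two (a := 6) (b := 7)))
    by_contra y
    simp only [mem_insert, mem_singleton, not_or] at y
    exact notMem_empty i (a ▸ mem_erase.2 ⟨y.2, mem_erase.2 ⟨y.1, x⟩⟩)
  refine ⟨yd α - N + 1, fun K _ j hj => split2 fun s hs i hi => ?_⟩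
  have y := fun τ z => yd_s (τ := τ) hs z
  have y0 := (y ∅ (empty_subset _)).2.2
  by_cases x : N < yd (α - ind s)
  · exact van_empty fun τ z _ w => w (Or.inl (by rwa [yd, (y τ z).1, (y τ z).2.1]))
  by_cases x' : ∃ g ∈ U, g ≤ α - ind s
  swap
  · refine van_true ne fun τ z _ w => w.elim (by rwa [yd, (y τ z).1, (y τ z).2.1])
      fun ⟨g, a, b⟩ => x' ⟨g, a, b.trans (ind_mono α subset_union_left)⟩
  obtain ⟨g, a, b⟩ := x'
  have p : ∀ g ∈ U, g ≤ α - ind s → g 6 = (α - ind s) 6 ∧ yd (α - ind s) = N := fun g a b => by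
    have := h1 g a
    have := b 6; have := b 7
    unfold yd at *; omega
  refine van_meet ne (univ.filter fun k => α k ≤ g k) (fun τ z => ⟨fun w => ?_, ?_⟩)
    (by have := (p g a b).2; omega)
  · by_contra v
    refine w (Or.inr ⟨g, a, fun k => ?_⟩)
    have := b k
    have u : k ∈ τ → g k < α k := fun u => not_le.1 fun r => v ⟨k, by simp [u, r]⟩
    simp only [Finsupp.tsub_apply, ind_ap, mem_union] at this ⊢
    by_cases r : k ∈ τ
    · have := u r; split_ifs <;> omega
    · simpa [r] using this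
  · rintro ⟨k, w⟩ (v | ⟨g', a', b'⟩)
    · rw [yd, (y τ z).1, (y τ z).2.1] at v; exact x v
    · have c := b'.trans (ind_mono α subset_union_left)
      have := b' k
      have u := Finsupp.mem_support_iff.1 (mem_of_mem_erase (mem_of_mem_erase (z (mem_inter.1 w).1)))
      rw [h2 g' a' g a (by rw [(p g a b).1, (p g' a' c).1]), Finsupp.tsub_apply, ind_ap,
        if_pos (mem_union_right _ (mem_inter.1 w).1)] at this
      have := (mem_filter.1 (mem_inter.1 w).2).2
      omega

theorem result (h : ℕ) (hh : 1 ≤ h) : ∃ S : Set (Fin 8 →₀ ℕ), S.Finite ∧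
    (∀ l, 1 ≤ l → l < h → ∀ (K K' : Type) [Field K] [Field K'] (j : ℕ) (α : Fin 8 →₀ ℕ),
      kbetti (monI K S ^ l) j α = kbetti (monI K' S ^ l) j α) ∧
    ∀ l, h ≤ l → ∃ (j : ℕ) (α : Fin 8 →₀ ℕ),
      kbetti (monI ℚ S ^ l) j α ≠ kbetti (monI (ZMod 2) S ^ l) j α := by
  simp only [kbetti_eq]
  obtain ⟨h, rfl⟩ : ∃ k, h = k + 1 := ⟨h - 1, by omega⟩
  have g0 : gg (DD h) 0 0 ∈ GG h := by simp [GG]
  have hp : Finsupp.single 6 (DD h) ∈ GG h := by simp [GG, gg]
  have hq : Finsupp.single 7 (DD h) ∈ GG h := by simpa [gg] using g0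
  have mb := fun (K : Type) [Field K] => mb_iff (K := K)
    (show 0 < DD h from pow_pos (by unfold MM; omega) _) (g_yd h) hp hq
  refine ⟨SS (DD h) (GG h), (((Set.toFinite _).union (Set.finite_range _)).union
    (Set.finite_range _)).union ((Set.finite_Iic _).image _), fun l a b K K' _ _ j α => ?_,
    fun l a => ?_⟩
  all_goals
    obtain ⟨l, rfl⟩ : ∃ k, l = k + 1 := ⟨l - 1, by omega⟩
    simp only [monI_pow, mbetti_def]
  · obtain ⟨j0, c⟩ := one (yd_ns (g_yd h) (l + 1)) (uniq h (by omega)) α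
    exact hdim_eq (fun τ _ => up_erase α τ) (j0 - 1) (fun i x => (mb K l i α).2 (c K _ (by omega)))
      (fun i x => (mb K' l i α).2 (c K' _ (by omega))) j
  · have ns : ∀ c k, c ≤ DD h → k • gg (DD h) c 0 = gg (k * DD h) (k * c) 0 := fun c k _ => by
      rw [gg, gg, add_zero, add_zero, smul_add, Finsupp.smul_single, Finsupp.smul_single,
        smul_eq_mul, smul_eq_mul, Nat.mul_sub]
    have := dep' (N := (l + 1) * DD h) (U := (l + 1) • GG h) (a := AA h)
      ((aD h).trans (Nat.le_mul_of_pos_left _ (by omega))) fun β x y => ⟨fun ⟨g, b, c⟩ => by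
        obtain ⟨j, m, n, -, h2, h3⟩ := inv h _ g b
        have d : g 6 = AA h := by
          have z : g 6 + g 7 = β 6 + β 7 := (yd_ns (g_yd h) _ g b).trans x.symm
          have := c 6; have := c 7
          clear h2 x; omega
        obtain ⟨t, e⟩ : ∃ t, n t ≠ 0 := by
          by_contra z
          push Not at z
          have e : ∀ t, MM h ∣ BB h t := fun t => dvd_pow_self _ (by omega)
          simp only [z, zero_mul, sum_const_zero, mul_zero, add_zero, zero_add, d, AA] at h2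
          have e1 : MM h ∣ h * ∑ t, BB h t := dvd_mul_of_dvd_right (dvd_sum fun t _ => e t) h
          have e2 : MM h ∣ ∑ t, m t * BB h t + j * DD h :=
            dvd_add (dvd_sum fun t _ => dvd_mul_of_dvd_right (e t) _)
              (dvd_mul_of_dvd_right (dvd_pow_self _ (by decide)) _)
          rw [← h2] at e2
          have := (Nat.dvd_add_left e1).1 e2
          have := Nat.le_of_dvd one_pos this
          unfold MM at this; omega
        refine ⟨t, fun i => le_trans ?_ (c i)⟩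
        by_cases z : i ∈ XX
        · rw [h3 i z]
          exact (Nat.le_mul_of_pos_left _ (Nat.pos_of_ne_zero e)).trans
            (single_le_sum (f := fun t => n t * jj t i) (fun _ _ => Nat.zero_le _) (mem_univ t))
        · rw [jj, ind_ap, if_neg fun w => z (mem_sdiff.1 w).1]; exact Nat.zero_le _,
      fun ⟨t, c⟩ => ⟨_, by
        have e := Set.add_mem_add (Set.add_mem_add (Set.nsmul_mem_nsmul (n := l - h) g0)
          (Set.nsmul_mem_nsmul (n := h) (show _ ∈ GG h from Or.inl (Or.inr ⟨t, rfl⟩))))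
          (show _ ∈ GG h from Or.inr ⟨t, rfl⟩)
        have := bA h t
        rwa [← add_nsmul, ← succ_nsmul, ns _ _ (Nat.zero_le _), ns _ _ (bD h t),
          gg_add _ _ (by simp) (Nat.mul_le_mul_left _ (bD h t)), gg_add _ _
            (add_le_add (by simp) (Nat.mul_le_mul_left _ (bD h t)))
            ((Nat.sub_le _ _).trans (aD h)), ← add_mul, ← add_one_mul, zero_add, zero_add,
          show l - h + h = l by omega, show (l - h) * 0 + h * BB h t + (AA h - h * BB h t) = β 6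
            by omega] at e, gg_le (jj6 t) (jj7 t) x c⟩⟩
    exact ⟨5, _, fun e => this.2 ((mb _ l 5 _).1 (e ▸ (mb _ l 5 _).2 this.1))⟩

end Pool.Agent.Results.MP_8a71fe_al.Exact
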